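import Pool.Agent.H44.DU.Targets2
import Pool.Agent.H21.DU.MS

/-!
# Module MSL: all levels together
-/

set_option autoImplicit false

namespace Pool.Agent.H60.DU.MSL

open Pool.Agent.H44.DU Pool.Agent.H21.DU.MS

variable {n : ℕ} (S : Surf n)

lemma acc_shift {t : ℝ} {y : ℕ → Side n × ℝ} (K : ℕ) (h : S.TAcc t fun j => y (K + j)) :
    S.TAcc t y := by
  obtain ⟨q, hq, h1⟩ := h
  refine ⟨q, hq, fun ε hε N => ?_⟩
  obtain ⟨j, hj, h2⟩ := h1 ε hε N
  exact ⟨K + j, by omega, h2⟩

lemma acc_of_rev (h : T_IO) {t : ℝ} {y : ℕ → Side n × ℝ}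
    (hy : S.rev.TAcc t fun j => S.io t (y j)) : S.TAcc t y := by
  obtain ⟨q', hq', h2⟩ := hy
  refine ⟨S.rev.io t q', per_rev' S h hq', fun ε hε N => ?_⟩
  have hpos := S.a_pos (S.rev.io t q').1
  obtain ⟨k, hk, h3, h4⟩ := h2 (ε * S.a (S.rev.io t q').1) (mul_pos hε hpos) N
  have h5 : (y k).1 = (S.rev.io t q').1 := by
    change _ = S.gl q'.1
    rw [← h3]
    change _ = S.gl (S.gl (y k).1)
    rw [S.gl_gl]
  refine ⟨k, hk, h5, ?_⟩
  have h6 : q'.2 = -S.mv t (S.rev.io t q').1 (S.rev.io t q').2 := by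
    conv_lhs => rw [← io_right S h t q']
    rfl
  have h7 : (S.io t (y k)).2 = -S.mv t (S.rev.io t q').1 (y k).2 := by
    rw [← h5]
    rfl
  have h8 : (S.io t (y k)).2 - q'.2 =
      -(S.a (S.rev.io t q').1 * ((y k).2 - (S.rev.io t q').2)) := by
    rw [h6, h7]
    simp only [Surf.mv]
    ring
  rw [h8, abs_neg, abs_mul, abs_of_pos hpos, mul_comm ε] at h4
  exact lt_of_mul_lt_mul_left h4 hpos.le

lemma ev_const (lev : Fin n → ℤ) (f : ℕ → Fin n) (h : ∀ k, lev (f k) ≤ lev (f (k + 1))) :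
    ∃ K l, ∀ k ≥ K, lev (f k) = l := by
  have hm : Monotone fun k => lev (f k) := monotone_nat_of_le_succ h
  have hfin : (Set.range fun k => lev (f k)).Finite :=
    (Set.finite_range lev).subset (by rintro _ ⟨k, rfl⟩; exact ⟨_, rfl⟩)
  obtain ⟨_, ⟨K, rfl⟩, hK⟩ := Set.exists_max_image _ id hfin ⟨_, 0, rfl⟩
  exact ⟨K, lev (f K), fun k hk => le_antisymm (hK _ ⟨k, rfl⟩) (hm hk)⟩

lemma ev_const' (lev : Fin n → ℤ) (f : ℕ → Fin n) (h : ∀ k, lev (f (k + 1)) ≤ lev (f k)) :
    ∃ K l, ∀ k ≥ K, lev (f k) = l := by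
  obtain ⟨K, l, hK⟩ := ev_const (fun i => -lev i) f (fun k => neg_le_neg (h k))
  exact ⟨K, -l, fun k hk => by rw [← hK k hk, neg_neg]⟩

theorem pf_MSL (h : T_IO) (hI : T_INF) : T_MSL := by
  intro n S up lev t hn hG hlev hU hL
  -- a cycle stays in one level
  have cyc : ∀ (m : ℕ) (y : ℕ → Side n × ℝ), S.TCyc t m y → ∀ k ≤ m,
      lev (y k).1.1 = lev (y 0).1.1 := by
    intro m y hc
    have mono : ∀ i, ∀ j, i ≤ j → j ≤ m → lev (y i).1.1 ≤ lev (y j).1.1 := by
      intro i j hij
      induction j, hij using Nat.le_induction with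
      | base => exact fun _ => le_rfl
      | succ j hj ih => exact fun h5 => (ih (by omega)).trans (hlev _ _ (hc.2.1 j (by omega)))
    intro k hk
    refine le_antisymm ?_ (mono 0 k (Nat.zero_le _) hk)
    have h1 := mono k m hk le_rfl
    rwa [hc.2.2] at h1
  have cycgl : ∀ (m : ℕ) (y : ℕ → Side n × ℝ), S.TCyc t m y → ∀ k ≤ m,
      lev (S.gl (y k).1).1 = lev (y 0).1.1 := by
    intro m y hc k hk
    rcases Nat.lt_or_ge k m with h1 | h1
    · rw [(hc.2.1 k h1).2.2.1]
      exact cyc m y hc (k + 1) h1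
    · have h2 : k = m := le_antisymm hk h1
      rw [h2, hc.2.2, (hc.2.1 0 hc.1).2.2.1]
      exact cyc m y hc 1 hc.1
  have fin : (S.TPer t).Finite := by
    have h1 : S.TPer t ⊆ ⋃ i : Fin n, {p ∈ S.TPer t | lev p.1.1 = lev i} := by
      intro p hp
      exact Set.mem_iUnion.2 ⟨p.1.1, hp, rfl⟩
    refine (Set.finite_iUnion fun i => ?_).subset h1
    by_cases hup : up (lev i)
    · refine (hU _ hup).fin.subset ?_
      rintro p ⟨⟨m, y, hc, hy⟩, hp⟩
      refine ⟨m, y, hc, hy, fun k hk => ?_⟩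
      show lev (y k).1.1 = lev i
      rw [cyc m y hc k hk, hy, hp]
    · refine (Set.Finite.preimage (f := S.io t) ?_ (hL _ hup).fin).subset ?_
      · intro p _ q _ hpq
        rw [← io_left S h t p, hpq, io_left S h t q]
      · rintro p ⟨⟨m, y, hc, hy⟩, hp⟩
        refine ⟨m, _, cyc_rev S h hc, ?_, fun k hk => ?_⟩
        · simp [hc.2.2, hy]
        · show lev (S.gl (y (m - k)).1).1 = lev i
          rw [cycgl m y hc (m - k) (by omega), hy, hp]
  have fwd : ∀ y : ℕ → Side n × ℝ, (∀ k, S.Tr t (y k) (y (k + 1))) → S.TAcc t y := by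
    intro y hy
    obtain ⟨K, l, hK⟩ := ev_const lev (fun k => (y k).1.1) (fun k => hlev _ _ (hy k))
    apply acc_shift S K
    by_cases hup : up l
    · exact (hU l hup).fwd (fun j => y (K + j)) (fun j => hy (K + j))
        (fun j => hK (K + j) (Nat.le_add_right _ _))
    · apply acc_of_fin S fin
      intro k
      have h1 := (hL l hup).bwd (fun j => S.io t (y (K + k + j)))
        (fun j => ((h n S t).2 _ _).1 (hy (K + k + j)))
        (fun j => by
          change lev (S.gl (y (K + k + j)).1).1 = l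
          rw [(hy (K + k + j)).2.2.1]
          exact hK _ (by omega))
      have h2 := per_rev' S h h1
      simpa [io_left S h] using h2
  refine ⟨fin, ?_, ?_, fwd, ?_⟩
  · obtain ⟨y, hy⟩ := hI n S t hn hG
    obtain ⟨q, hq, -⟩ := fwd y hy
    exact ⟨q, hq⟩
  · intro m y hc
    by_cases hup : up (lev (y 0).1.1)
    · exact (hU _ hup).hyp m y hc (fun k hk => cyc m y hc k hk)
    · have h1 := (hL _ hup).hyp m _ (cyc_rev S h hc) (fun k hk => by
        change lev (S.gl (y (m - k)).1).1 = _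
        exact cycgl m y hc (m - k) (by omega))
      intro h2
      apply h1
      have h3 : ∀ k, S.rev.a (S.io t (y (m - k))).1 = (S.a (y (m - k)).1)⁻¹ := by
        intro k
        exact S.a_gl _
      rw [Finset.prod_congr rfl (fun k _ => h3 k), Finset.prod_inv_distrib]
      have h4 : ∏ k ∈ Finset.range m, S.a (y (m - k)).1 =
          ∏ k ∈ Finset.range m, S.a (y (k + 1)).1 := by
        rw [← Finset.prod_range_reflect (fun k => S.a (y (k + 1)).1) m]
        apply Finset.prod_congr rfl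
        intro k hk
        have hk2 := Finset.mem_range.1 hk
        rw [show m - 1 - k + 1 = m - k by omega]
      have h5 : (∏ k ∈ Finset.range m, S.a (y (k + 1)).1) * S.a (y 0).1 =
          (∏ k ∈ Finset.range m, S.a (y k).1) * S.a (y m).1 := by
        rw [← Finset.prod_range_succ' (fun k => S.a (y k).1) m,
          ← Finset.prod_range_succ (fun k => S.a (y k).1) m]
      rw [hc.2.2, h2] at h5
      have h6 := mul_right_cancel₀ (S.a_pos (y 0).1).ne' h5
      rw [h4, h6, inv_one]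
  · intro y hy
    obtain ⟨K, l, hK⟩ := ev_const' lev (fun k => (y k).1.1) (fun k => hlev _ _ (hy k))
    by_cases hup : up l
    · apply acc_shift S K
      apply acc_of_fin S fin
      intro k
      exact (hU l hup).bwd (fun j => y (K + k + j)) (fun j => hy (K + k + j))
        (fun j => hK _ (by omega))
    · apply acc_shift S (K + 1)
      apply acc_of_rev S h
      refine (hL l hup).fwd _ (fun j => ((h n S t).2 _ _).1 (hy (K + 1 + j))) (fun j => ?_)
      change lev (S.gl (y (K + 1 + j)).1).1 = l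
      have h2 := (hy (K + j)).2.2.1
      rw [show K + 1 + j = K + j + 1 by ring, h2]
      exact hK _ (by omega)

end Pool.Agent.H60.DU.MSL
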