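import Pool.Agent.H44.DU.Targets

/-!
# Module TL: the words of the translation part are bounded
-/

set_option autoImplicit false

namespace Pool.Agent.H60.DU

open Pool.Agent.H44.DU

namespace TL

variable {n : ℕ} (S : Surf n) (t : ℝ)

/-- the leaves leave through the side -/
def Exi (s : Side n) : Prop := xi t (S.Q s) < xi t (S.P s)

/-- the leaves enter through the side -/
def Ent (s : Side n) : Prop := xi t (S.P s) < xi t (S.Q s)

lemma dev_nil (c : Side n) : S.dev [] c = S.P c := by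
  simp [Surf.dev, Surf.A, Surf.B]

lemma ne_of_gd (h : S.Gd t) (s : Side n) : xi t (S.P s) ≠ xi t (S.Q s) := by
  intro he
  have h1 := h [] [] s (nx s)
  rw [dev_nil, dev_nil, S.P_nx] at h1
  have h2 := h1 he
  apply S.P_ne_Q s
  apply Complex.ext
  · unfold xi at he
    rw [h2] at he
    linarith
  · exact h2

lemma ent_or (h : S.Gd t) (s : Side n) : Ent S t s ∨ Exi S t s :=
  lt_or_gt_of_ne (ne_of_gd S t h s)

lemma not_both {s : Side n} (h : Ent S t s) (h' : Exi S t s) : False := lt_asymm h h'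

lemma exi_gl {s : Side n} (h : Ent S t s) : Exi S t (S.gl s) := by
  rw [Exi, S.xi_Q_gl, S.xi_P_gl, S.mv_lt_iff]; exact h

lemma ent_gl {s : Side n} (h : Exi S t s) : Ent S t (S.gl s) := by
  rw [Ent, S.xi_Q_gl, S.xi_P_gl, S.mv_lt_iff]; exact h

lemma exists_ent (h : S.Gd t) (i : Fin n) : ∃ s : Side n, s.1 = i ∧ Ent S t s := by
  by_contra hne
  push Not at hne
  have e : ∀ s : Side n, s.1 = i → Exi S t s := fun s hs => (ent_or S t h s).resolve_left (hne s hs)
  have e1 := e (i, 0) rfl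
  have e2 := e (nx (i, 0)) rfl
  have e3 := e (nx (nx (i, 0))) rfl
  rw [Exi] at e1 e2 e3
  rw [S.Q_nx, S.P_nx] at e2
  rw [S.Q_nx_nx, S.P_nx_nx] at e3
  linarith

lemma exists_exi (h : S.Gd t) (i : Fin n) : ∃ s : Side n, s.1 = i ∧ Exi S t s := by
  by_contra hne
  push Not at hne
  have e : ∀ s : Side n, s.1 = i → Ent S t s := fun s hs => (ent_or S t h s).resolve_right (hne s hs)
  have e1 := e (i, 0) rfl
  have e2 := e (nx (i, 0)) rfl
  have e3 := e (nx (nx (i, 0))) rfl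
  rw [Ent] at e1 e2 e3
  rw [S.Q_nx, S.P_nx] at e2
  rw [S.Q_nx_nx, S.P_nx_nx] at e3
  linarith

/-- an entry and an exit of one triangle have an interval in common -/
lemma common {s r : Side n} (hs : Ent S t s) (hr : Exi S t r) (h : r.1 = s.1) :
    ∃ c d : ℝ, c < d ∧ xi t (S.P s) ≤ c ∧ d ≤ xi t (S.Q s) ∧ xi t (S.Q r) ≤ c ∧
      d ≤ xi t (S.P r) := by
  rcases side_cases h with h | h | h
  · rw [h] at hr
    exact (not_both S t hs hr).elim
  · rw [h] at hr ⊢
    rw [Exi, S.Q_nx, S.P_nx] at hr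
    rw [S.Q_nx, S.P_nx]
    exact ⟨max (xi t (S.O s)) (xi t (S.P s)), xi t (S.Q s), max_lt hr hs, le_max_right _ _, le_rfl,
      le_max_left _ _, le_rfl⟩
  · rw [h] at hr ⊢
    rw [Exi, S.Q_nx_nx, S.P_nx_nx] at hr
    rw [S.Q_nx_nx, S.P_nx_nx]
    exact ⟨xi t (S.P s), min (xi t (S.O s)) (xi t (S.Q s)), lt_min hr hs, le_rfl,
      min_le_right _ _, le_rfl, min_le_left _ _⟩

variable (I : Side n → Prop)

/-- some leaf leaving through `r` reaches the outside -/
def NE (r : Side n) : Prop := ∃ x, S.Ex t I r x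

section

variable (h1 : T_DI) (h2 : T_EB) (h3 : T_IN) (hG : S.Gd t) (ha : ∀ s, I s → S.a s = 1)
  (hI : ∀ s, I (S.gl s) ↔ I s)

include h1 h2 hG ha hI in
lemma L1 {s r : Side n} (hs : Ent S t s) (hIs : I s) (hr : Exi S t r) (h : r.1 = s.1) :
    NE S t I (S.gl s) ↔ NE S t I r := by
  obtain ⟨c, d, hcd, a1, a2, a3, a4⟩ := common S t hs hr h
  have hIu : I (S.gl s) := (hI s).2 hIs
  constructor
  · rintro ⟨x, hx⟩
    obtain ⟨y, y1, y2, hy⟩ := h1 n S t I hG ha hI (S.gl s) x hx (S.mv t s c) (S.mv t s d)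
      ((S.mv_lt_iff t s).2 hcd) (by rw [S.xi_Q_gl]; exact (S.mv_le_iff t s).2 a1)
      (by rw [S.xi_P_gl]; exact (S.mv_le_iff t s).2 a2)
    have e1 := S.mv_gl' t s y
    rw [← e1, S.mv_lt_iff] at y1 y2
    refine ⟨S.mv t (S.gl s) y, (h2 n S t I r (S.gl s) y hIu ⟨?_, ?_, ?_, rfl⟩).1 hy⟩
    · show S.InJ t (S.gl s) y
      rw [← e1, S.inJ_gl_iff]
      exact ⟨a1.trans_lt y1, y2.trans_le a2⟩
    · exact ⟨a3.trans_lt y1, y2.trans_le a4⟩
    · show (S.gl (S.gl s)).1 = r.1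
      rw [S.gl_gl, h]
  · rintro ⟨x, hx⟩
    obtain ⟨y, y1, y2, hy⟩ := h1 n S t I hG ha hI r x hx c d hcd a3 a4
    have e1 := S.mv_gl t s y
    refine ⟨S.mv t s y, (h2 n S t I r (S.gl s) (S.mv t s y) hIu ⟨?_, ?_, ?_, rfl⟩).2 ?_⟩
    · show S.InJ t (S.gl s) (S.mv t s y)
      rw [S.inJ_gl_iff]
      exact ⟨a1.trans_lt y1, y2.trans_le a2⟩
    · show S.InJ t r (S.mv t (S.gl s) (S.mv t s y))
      rw [e1]
      exact ⟨a3.trans_lt y1, y2.trans_le a4⟩
    · show (S.gl (S.gl s)).1 = r.1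
      rw [S.gl_gl, h]
    · rw [e1]; exact hy

include h3 ha hI in
lemma L2 {s r : Side n} (hs : Ent S t s) (hIs : ¬ I s) (hr : Exi S t r) (h : r.1 = s.1) :
    NE S t I r := by
  obtain ⟨c, d, hcd, a1, a2, a3, a4⟩ := common S t hs hr h
  obtain ⟨y, -, -, hy⟩ := h3 n S t I ha hI s r c d hIs h.symm hcd fun y y1 y2 =>
    ⟨⟨a1.trans_lt y1, y2.trans_le a2⟩, ⟨a3.trans_lt y1, y2.trans_le a4⟩⟩
  exact ⟨y, hy⟩

include h1 h2 h3 hG ha hI in
lemma L3 {r r2 : Side n} (hr : Exi S t r) (hr2 : Exi S t r2) (h : r.1 = r2.1)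
    (hN : NE S t I r) : NE S t I r2 := by
  obtain ⟨s, hs, hse⟩ := exists_ent S t hG r.1
  by_cases hIs : I s
  · exact (L1 S t I h1 h2 hG ha hI hse hIs hr2 (h.symm.trans hs.symm)).1
      ((L1 S t I h1 h2 hG ha hI hse hIs hr hs.symm).2 hN)
  · exact L2 S t I h3 ha hI hse hIs hr2 (h.symm.trans hs.symm)

include h1 h2 h3 hG ha hI in
lemma L4 {f : Side n} (hf : ¬ I f) (r : Side n) (hr : Exi S t r) (h : r.1 = f.1) :
    NE S t I r := by
  rcases ent_or S t hG f with hf' | hf'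
  · exact L2 S t I h3 ha hI hf' hf hr h
  · refine L3 S t I h1 h2 h3 hG ha hI hf' hr h.symm
      ⟨(xi t (S.Q f) + xi t (S.P f)) / 2, [], ⟨[], f, rfl, by simp, hf⟩, ?_⟩
    rw [S.run_single]
    rw [Exi] at hf'
    constructor <;> linarith

include h1 h2 h3 hG ha hI in
lemma L5 {s : Side n} (hIs : I s) (hj : ∀ r : Side n, Exi S t r → r.1 = (S.gl s).1 → NE S t I r)
    (r : Side n) (hr : Exi S t r) (h : r.1 = s.1) : NE S t I r := by
  rcases ent_or S t hG s with hs | hs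
  · exact (L1 S t I h1 h2 hG ha hI hs hIs hr h).1 (hj _ (exi_gl S t hs) rfl)
  · obtain ⟨r', hr', hre⟩ := exists_exi S t hG (S.gl s).1
    have hn : NE S t I (S.gl (S.gl s)) :=
      (L1 S t I h1 h2 hG ha hI (ent_gl S t hs) ((hI s).2 hIs) hre hr').2 (hj r' hre hr')
    rw [S.gl_gl] at hn
    exact L3 S t I h1 h2 h3 hG ha hI hs hr h.symm hn

end

end TL

open TL in
theorem pf_TL (h1 : T_DI) (h2 : T_EB) (h3 : T_IN) (h4 : T_K1) (h5 : T_FD) (h6 : T_LH) : T_TL := by
  intro n S t I hG ha hI hpath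
  have St : ∀ i : Fin n, ∀ r : Side n, Exi S t r → r.1 = i → NE S t I r := by
    intro i
    obtain ⟨f, hf, hp⟩ := hpath i
    induction hp using Relation.ReflTransGen.head_induction_on with
    | refl => exact fun r hr h => L4 S t I h1 h2 h3 hG ha hI hf r hr h
    | head hab hbc ih =>
      obtain ⟨s, hIs, rfl, rfl⟩ := hab
      exact fun r hr h => L5 S t I h1 h2 h3 hG ha hI hIs ih r hr h
  obtain ⟨N, hN⟩ := h4 n S t I ha
  refine ⟨N, fun w x hw hrun => ?_⟩
  by_contra hlt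
  cases w with
  | nil => simp at hlt
  | cons r w1 =>
    obtain ⟨hch, hlo, hhi⟩ := (h6 n S t (r :: w1) (by simp) x).1 hrun
    have hin : ∀ y, S.lo t (r :: w1) < y → y < S.hi t (r :: w1) → S.Run t (r :: w1) y :=
      fun y y1 y2 => (h6 n S t (r :: w1) (by simp) y).2 ⟨hch, y1, y2⟩
    have hJ : ∀ y, S.Run t (r :: w1) y → S.InJ t r y := fun y h => h.1
    obtain ⟨z, hz⟩ := St r.1 r ((hJ x hrun).1.trans (hJ x hrun).2) rfl
    have c1 := hJ _ (hin ((S.lo t (r :: w1) + x) / 2) (by linarith) (by linarith))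
    have d1 := hJ _ (hin ((x + S.hi t (r :: w1)) / 2) (by linarith) (by linarith))
    obtain ⟨y, y1, y2, w2, hE, hR⟩ := h1 n S t I hG ha hI r z hz ((S.lo t (r :: w1) + x) / 2)
      ((x + S.hi t (r :: w1)) / 2) (by linarith) c1.1.le d1.2.le
    have hlen := hN _ y hE hR
    have hRw := hin y (by linarith) (by linarith)
    have hpre : (r :: w2) <+: (r :: w1) := by
      rcases h5 n S t y (r :: w1) (r :: w2) hRw hR (by simp) with h | h
      · have := h.length_le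
        omega
      · exact h
    obtain ⟨u, l, hul, -, hl⟩ := hE
    apply hl
    apply hw
    apply hpre.subset
    rw [hul]
    simp

end Pool.Agent.H60.DU
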