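import Pool.Agent.H44.DU.Targets

/-!
# Module TR: the lemma on trees of intervals
-/

set_option autoImplicit false

namespace Pool.Agent.H60.DU

open Pool.Agent.H44.DU

theorem pf_TR : T_TR := by
  intro E _ W lo hi D o h1 h2 h3 h4
  have key : ∀ e : E, ∃ m : ℕ, ∀ w, e :: w ∈ W → lo (e :: w) < o e → o e < hi (e :: w) →
      (e :: w).length ≤ m := by
    intro e
    by_cases hx : ∃ w, e :: w ∈ W ∧ lo (e :: w) < o e ∧ o e < hi (e :: w)
    · obtain ⟨w, hw, ha, hb⟩ := hx
      refine ⟨(e :: w).length, fun w' hw' ha' hb' => ?_⟩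
      by_cases hne : e :: w = e :: w'
      · rw [hne]
      · exfalso
        rcases h3 _ hw _ hw' hne rfl with h | h <;> linarith
    · exact ⟨0, fun w hw ha hb => absurd ⟨w, hw, ha, hb⟩ hx⟩
  choose m hm using key
  obtain ⟨m0, hm0⟩ : ∃ m0, ∀ e, m e ≤ m0 :=
    ⟨Finset.univ.sup m, fun e => Finset.le_sup (Finset.mem_univ e)⟩
  obtain ⟨la, hla, hF⟩ : ∃ la : ℝ, 0 < la ∧ ∀ w ∈ W, w.length = m0 + 1 → la ≤ hi w - lo w := by
    have hfin : {w : List E | w ∈ W ∧ w.length = m0 + 1}.Finite :=
      (List.finite_length_eq E (m0 + 1)).subset (fun w hw => hw.2)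
    rcases Set.eq_empty_or_nonempty {w : List E | w ∈ W ∧ w.length = m0 + 1} with he | hne
    · refine ⟨1, one_pos, fun w hw hl => ?_⟩
      have : w ∈ {w : List E | w ∈ W ∧ w.length = m0 + 1} := ⟨hw, hl⟩
      rw [he] at this
      exact absurd this (Set.notMem_empty w)
    · obtain ⟨w0, hw0, hmin⟩ := Set.exists_min_image _ (fun w => hi w - lo w) hfin hne
      exact ⟨hi w0 - lo w0, sub_pos.2 (h2 w0 hw0.1).2.1, fun w hw hl => hmin w ⟨hw, hl⟩⟩
  have long : ∀ w : List E, w ∈ W → m0 + 1 ≤ w.length → la ≤ hi w - lo w := by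
    intro w
    induction w with
    | nil => intro hw hl; simp at hl
    | cons e' w ih =>
      intro hw hl
      rcases Nat.eq_or_lt_of_le hl with h | h
      · exact hF _ hw h.symm
      · cases w with
        | nil => simp at h
        | cons e w =>
          have hw' : e :: w ∈ W := h1 e' _ hw (by simp)
          have hlen : m0 + 1 ≤ (e :: w).length := by
            simp only [List.length_cons] at h ⊢
            omega
          have hns : ¬ (lo (e :: w) < o e ∧ o e < hi (e :: w)) := by
            rintro ⟨ha, hb⟩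
            have e1 := hm e w hw' ha hb
            have e2 := hm0 e
            omega
          rw [h4 e' e w hw hns]
          exact ih hw' hlen
  have hfin : {w : List E | w ∈ W ∧ m0 + 1 ≤ w.length}.Finite := by
    apply Set.Finite.of_finite_image (f := fun w : List E => (w.head?, ⌊lo w / la⌋))
    · refine ((Set.finite_univ (α := Option E)).prod (Set.finite_Icc ⌊-D / la⌋ ⌊D / la⌋)).subset ?_
      rintro _ ⟨w, ⟨hw, hl⟩, rfl⟩
      obtain ⟨-, a1, a2, a3⟩ := h2 w hw
      refine ⟨Set.mem_univ _, Int.floor_le_floor ?_, Int.floor_le_floor ?_⟩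
      · exact div_le_div_of_nonneg_right a2 hla.le
      · exact div_le_div_of_nonneg_right (a1.le.trans a3) hla.le
    · intro w hw w' hw' hf
      by_contra hne
      simp only [Prod.mk.injEq] at hf
      have step : ∀ u u' : List E, u ∈ W → m0 + 1 ≤ u.length → hi u ≤ lo u' →
          ⌊lo u / la⌋ + 1 ≤ ⌊lo u' / la⌋ := by
        intro u u' hu hl hh
        rw [Int.le_floor]
        push_cast
        have e1 := long u hu hl
        have e2 := Int.floor_le (lo u / la)
        have e3 : lo u / la + 1 ≤ lo u' / la := by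
          rw [div_add_one hla.ne']
          exact div_le_div_of_nonneg_right (by linarith) hla.le
        linarith
      rcases h3 w hw.1 w' hw'.1 hne hf.1 with h | h
      · have := step w w' hw.1 hw.2 h
        omega
      · have := step w' w hw'.1 hw'.2 h
        omega
  obtain ⟨N, hN⟩ := (hfin.image List.length).bddAbove
  refine ⟨max m0 N, fun w hw => ?_⟩
  rcases Nat.lt_or_ge m0 w.length with h | h
  · exact (hN ⟨w, ⟨hw, h⟩, rfl⟩).trans (le_max_right _ _)
  · exact h.trans (le_max_left _ _)

end Pool.Agent.H60.DU
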