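import Pool.Agent.H44.DU.Targets2
import Pool.Agent.H35.DU.PU

/-!
# Module LU: without bad words the set is good
-/

set_option autoImplicit false

namespace Pool.Agent.H60.DU.LU

open Pool.Agent.H44.DU Surf

variable {n : ℕ} (S : Surf n)

lemma per_chain {V : Fin n → Prop} {t : ℝ} {q : ℕ} {y : ℕ → Side n × ℝ} (hy : S.TCyc t q y)
    (hV : ∀ k ≤ q, V (y k).1.1) :
    (∀ k, S.Tr t (y (k % q)) (y ((k + 1) % q))) ∧ (∀ k, y ((k + q) % q) = y (k % q)) ∧
      ∀ k, V (y (k % q)).1.1 := by
  obtain ⟨a1, a2⟩ := S.cyc_chain hy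
  exact ⟨a1, a2, fun k => hV _ (Nat.mod_lt k hy.1).le⟩

theorem pf_LU (h3 : T_L3) (h4 : T_L4) (h5 : T_L5) (h6 : T_L6) : T_LU := by
  intro n S V t c C ρ m hG hc hga hC0 h0 h1 hC hm hNB
  constructor
  · -- fin
    classical
    have hex : ∀ p : Side n × ℝ, ∃ l : List (Side n),
        (∃ m y, S.TCyc t m y ∧ y 0 = p ∧ ∀ k ≤ m, V (y k).1.1) →
        ∃ (q : ℕ) (y : ℕ → Side n × ℝ), 0 < q ∧ (∀ k, S.Tr t (y k) (y (k + 1))) ∧
          (∀ k, y (k + q) = y k) ∧ y 0 = p ∧ (∀ k, V (y k).1.1) ∧
          l = (List.range m).map (fun j => (y j).1) := by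
      intro p
      by_cases hp : ∃ m y, S.TCyc t m y ∧ y 0 = p ∧ ∀ k ≤ m, V (y k).1.1
      · obtain ⟨q, y, hy, hy0, hV⟩ := hp
        obtain ⟨a1, a2, a3⟩ := per_chain S hy hV
        exact ⟨_, fun _ => ⟨q, fun k => y (k % q), hy.1, a1, a2, by simpa using hy0, a3, rfl⟩⟩
      · exact ⟨[], fun h => absurd h hp⟩
    choose f hf using hex
    refine Set.Finite.of_injOn (f := f) (t := {l : List (Side n) | l.length = m}) ?_ ?_
      (List.finite_length_eq _ _)
    · intro p hp
      obtain ⟨q, y, -, -, -, -, -, h⟩ := hf p hp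
      simp [h]
    · intro p hp p' hp' hpp
      obtain ⟨q, y, a1, a2, a3, a4, aV, a5⟩ := hf p hp
      obtain ⟨q', y', b1, b2, b3, b4, bV, b5⟩ := hf p' hp'
      have hlet : ∀ j < m, (y' j).1 = (y j).1 := by
        have h : (List.range m).map (fun j => (y j).1) = (List.range m).map (fun j => (y' j).1) := by
          rw [← a5, ← b5, hpp]
        intro j hj
        exact (List.map_inj_left.1 h j (List.mem_range.2 hj)).symm
      have hall := (h3 n S V t m hm hNB y a2 aV).2 y' b2 hlet
      have hd := S.chain_diff a2 b2 (fun k => (hall k).symm) 0 (q' * q)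
      have hP : ∀ k, y (k + q' * q) = y k := H35.DU.PU.y_mul a3 q'
      have hP' : ∀ k, y' (k + q' * q) = y' k := by
        intro k
        rw [mul_comm q' q]
        exact H35.DU.PU.y_mul b3 q k
      have hlt := H35.DU.PU.prod_lt_one S hC0 h0 h1 hC a2 aV (Nat.mul_pos b1 a1) hP
      rw [hP 0, hP' 0] at hd
      simp only [zero_add] at hd
      have hz : (y 0).2 - (y' 0).2 = 0 := by
        by_contra hne
        have : (1 - ∏ j ∈ Finset.range (q' * q), S.a (y j).1) * ((y 0).2 - (y' 0).2) = 0 := by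
          linarith
        rcases mul_eq_zero.1 this with h | h
        · linarith
        · exact hne h
      rw [← a4, ← b4]
      exact Prod.ext (hall 0).symm (by linarith)
  · -- hyp
    intro q y hy hV
    obtain ⟨a1, a2, a3⟩ := per_chain S hy hV
    have h := H35.DU.PU.prod_lt_one S hC0 h0 h1 hC (y := fun k => y (k % q)) a1 a3 hy.1 a2
    have he : ∏ j ∈ Finset.range q, S.a (y (j % q)).1 = ∏ k ∈ Finset.range q, S.a (y k).1 :=
      Finset.prod_congr rfl fun k hk => by
        rw [Nat.mod_eq_of_lt (Finset.mem_range.1 hk)]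
    rw [he] at h
    exact h.ne
  · -- fwd
    intro y hy hV
    obtain ⟨K, p, z0, hK⟩ := h5 n S V t m hm hNB y hy hV
    obtain ⟨z, z1, z2, z3, -⟩ := h4 n S V t c C ρ m hG hc hga hC0 h0 h1 hC hm hNB
      (fun k => y (K + k)) p (fun k => by simpa only [add_assoc] using hy (K + k))
      (fun k => hV _) z0 (fun k => by
        have := hK (K + k) (Nat.le_add_right _ _)
        simpa only [add_assoc] using this)
    refine ⟨z 0, S.chain_tper z1 z0 z3 0, ?_⟩
    intro ε hε N
    have hy' : ∀ k, S.Tr t (y (K + k)) (y (K + (k + 1))) := fun k => by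
      simpa only [add_assoc] using hy (K + k)
    set D : ℝ := |(y K).2 - (z 0).2| + 1 with hD
    have hDpos : 0 < D := by positivity
    obtain ⟨j, hj1, hj2⟩ := H35.DU.PU.exists_small hC0 h0 h1 z0 (div_pos hε hDpos) N
    refine ⟨K + j * p, ?_, ?_, ?_⟩
    · have : j ≤ j * p := Nat.le_mul_of_pos_right _ z0
      omega
    · rw [← z2, H35.DU.PU.z_mul z3]
    · have hd := S.chain_diff (y := fun k => y (K + k)) (y' := z) hy' z1
        (fun k => (z2 k).symm) 0 (j * p)
      simp only [zero_add, add_zero] at hd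
      rw [H35.DU.PU.z_mul z3] at hd
      rw [hd, abs_mul]
      have hpr := H35.DU.PU.prod_le S hC (y := fun k => y (K + k)) hy' (fun k => hV _) 0 (j * p)
      have hpos := H35.DU.PU.prod_pos S (fun k => y (K + k)) 0 (j * p)
      simp only [zero_add] at hpr hpos
      rw [abs_of_pos hpos]
      calc (∏ i ∈ Finset.range (j * p), S.a (y (K + i)).1) * |(y K).2 - (z 0).2|
          ≤ (C * ρ ^ (j * p)) * |(y K).2 - (z 0).2| :=
            mul_le_mul_of_nonneg_right hpr (abs_nonneg _)
        _ ≤ (C * ρ ^ (j * p)) * D := by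
            apply mul_le_mul_of_nonneg_left _ (hpos.le.trans hpr)
            rw [hD]; linarith
        _ < (ε / D) * D := mul_lt_mul_of_pos_right hj2 hDpos
        _ = ε := by field_simp
  · exact h6 n S V t c C ρ m hG hc hga hC0 h0 h1 hC hm hNB

end Pool.Agent.H60.DU.LU
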